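import Pool.Agent.Lib.MP_b90951_co.NPRed

/-!
Deciding, from its truth table, whether a Boolean function is the sum of two bent functions is
NP-complete.
-/

namespace Pool.Agent.Results.MP_b90951_co.NPComplete

open Pool.Agent.Lib.MP_b90951_co

theorem result : N793a5b8e.IsCompleteFor N68a2faeb.NP sumLang :=
  ⟨sumLang_mem_NP, Hard.sumLang_hard⟩

end Pool.Agent.Results.MP_b90951_co.NPComplete
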