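import Mathlib
import Pool.Agent.Lib.MP_b90951_co.Six

open Pool.Agent.Lib.MP_b90951_co

/-- For every even `n ≥ 8` some Boolean function of degree at most `min 6 (n/2)` is not the sum
of two bent functions. -/
theorem Pool.Agent.Results.MP_b90951_co.NotAllLowDegree.result
    (n : ℕ) (hn : Even n) (h8 : 8 ≤ n) :
    ∃ ψ : BoolFun n, DegLE ψ (min 6 (n / 2)) ∧ ψ ∉ BentSums n := by
  obtain ⟨r, rfl⟩ := hn.two_dvd
  rw [show 2 * r / 2 = r by omega]
  by_cases h : 6 ≤ r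
  · rw [min_eq_left h]
    exact exists_deg_six_not_sum r h
  · obtain ⟨d, hd, -, ψ, ⟨c, hc, hψ⟩, hX⟩ := exists_low_degree_not_sum r (by omega)
    exact ⟨ψ, ⟨c, fun S hS => hc S (by omega), hψ⟩, hX⟩
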