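import Pool.Agent.Lib.MP_b90951_co.M5Red

/-!
The permanent modulo five reduces in polynomial time to the multiplicity modulo five on the set of
sums of two bent functions.
-/

namespace Pool.Agent.Results.MP_b90951_co.PermanentModFive

open Pool.Agent.Lib.MP_b90951_co

theorem result : ∃ red : List (List Bool) → List Bool, N68a2faeb.IsPolyTime red ∧
    ∀ (N : ℕ) (A : Matrix (Fin N) (Fin N) Bool), ∃ n, Even n ∧ 2 ≤ n ∧ ∃ ψ : BoolFun n,
      table ψ = red (List.ofFn fun i => List.ofFn fun j => A i j) ∧ ψ ∈ BentSums n ∧
        mult ψ ≡ (A.map Bool.toNat).permanent [MOD 5] := by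
  refine ⟨Five.red, Five.pt_red, fun N A => ?_⟩
  have key : ∀ (L : List (List Bool)) (h : L.length = N),
      (∀ i j : Fin N, Five.ent L i j = A i j) →
      (Matrix.of fun i j : Fin L.length => (Five.ent L i j).toNat).permanent =
        (A.map Bool.toNat).permanent := by
    rintro L rfl h
    congr 1
    ext i j
    simp [h]
  rw [← key (List.ofFn fun i => List.ofFn fun j => A i j) (by simp) (fun i j => by simp [Five.ent])]
  exact Five.red_spec _

end Pool.Agent.Results.MP_b90951_co.PermanentModFive
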