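import Mathlib
import Pool.Agent.Lib.MP_b90951_co.Count

open Pool.Agent.Lib.MP_b90951_co

/-- For every even `n` the set `X_n` has at most `2^(40 C(n, n/2))` elements. -/
theorem Pool.Agent.Results.MP_b90951_co.SumsetSparse.result (n : ℕ) (hn : Even n) :
    (BentSums n).ncard ≤ 2 ^ (40 * n.choose (n / 2)) := by
  classical
  obtain ⟨r, rfl⟩ := hn.two_dvd
  rw [show 2 * r / 2 = r by omega]
  have h1 : BentSums (2 * r)
      = ((bentSet (2 * r) ×ˢ bentSet (2 * r)).image (fun p => p.1 + p.2) : Finset _) := by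
    ext ψ
    simp only [BentSums, Set.mem_ofPred_eq, Finset.coe_image, Set.mem_image, Finset.mem_coe,
      Finset.mem_product, mem_bentSet, Prod.exists]
    constructor
    · rintro ⟨f, h, hf, hh, rfl⟩; exact ⟨f, h, ⟨hf, hh⟩, rfl⟩
    · rintro ⟨f, h, ⟨hf, hh⟩, rfl⟩; exact ⟨f, h, hf, hh, rfl⟩
  rw [h1, Set.ncard_coe_finset]
  refine Finset.card_image_le.trans ?_
  rw [Finset.card_product, show 40 * (2 * r).choose r
    = 20 * (2 * r).choose r + 20 * (2 * r).choose r by ring, pow_add]
  exact Nat.mul_le_mul (card_bent_le r) (card_bent_le r)
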